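import Pool.Agent.NE.Stmts

/-!
# NE, row CLC: collapsing
-/

set_option autoImplicit false

open Finset Filter Topology

noncomputable section

namespace Pool.Agent.NE.H19

theorem clc (hA : AncStmt) (hS : SplStmt) (hN : NnbStmt) (hT : TrfStmt) (hL : LocStmt) :
    ClcStmt := by
  intro N p s σ θ H
  obtain ⟨hσ, -, -⟩ := hT N p s σ θ H
  obtain ⟨hus, hge, hsucc, hmono, -, -, -⟩ := hN N H.two
  have hone : ∀ t, 1 ≤ nn N t := fun t => le_trans (Nat.le_add_left 1 t) (hge t)
  refine ⟨?_, ?_, ?_⟩
  · intro t b i hi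
    have h2 := H.two t
    obtain ⟨hL1, hL2⟩ := hL N p s σ θ H t 1 le_rfl (by omega)
    rw [Nat.sub_self, Nat.add_zero] at hL1 hL2
    obtain ⟨-, hA2, -, -⟩ := hA (s t) (N t) (fun m hm hm' => H.lt t m hm hm')
    have hix : ∀ j, j < N t → anc σ (nn N t) (ix (nn N t) (us t) j) = us t := by
      intro j hj
      have h3 := (hA2 1 j le_rfl hj).1
      have h4 : anc (s t) 1 j = 0 := by omega
      rw [hL2 j hj, h4]
      rfl
    unfold cl
    rw [Finset.sum_filter, hsucc t,
      hS ℝ (fun k => if anc σ (nn N t) k = i then b k else 0) (nn N t) (us t) (N t) (hus t)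
        (by omega)]
    have h5 : ∑ k ∈ (range (nn N t)).erase (us t), (if anc σ (nn N t) k = i then b k else 0) =
        if i ∈ (range (nn N t)).erase (us t) then b i else 0 := by
      rw [← Finset.sum_ite_eq' ((range (nn N t)).erase (us t)) i b]
      refine Finset.sum_congr rfl fun k hk => ?_
      rw [hL1 k (Finset.mem_range.1 (Finset.mem_of_mem_erase hk))]
    have h6 : ∑ j ∈ range (N t), (if anc σ (nn N t) (ix (nn N t) (us t) j) = i then
        b (ix (nn N t) (us t) j) else 0) =
        ∑ j ∈ range (N t), if us t = i then b (ix (nn N t) (us t) j) else 0 := by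
      refine Finset.sum_congr rfl fun j hj => ?_
      rw [hix j (Finset.mem_range.1 hj)]
    rw [h5, h6]
    by_cases hiu : i = us t
    · rw [if_pos hiu, if_neg (by rw [hiu]; exact Finset.notMem_erase _ _), zero_add]
      exact Finset.sum_congr rfl fun j _ => if_pos hiu.symm
    · rw [if_neg hiu, if_pos (Finset.mem_erase.2 ⟨hiu, Finset.mem_range.2 hi⟩)]
      have h7 : ∑ j ∈ range (N t), (if us t = i then b (ix (nn N t) (us t) j) else 0) = 0 :=
        Finset.sum_eq_zero fun j _ => if_neg fun h => hiu h.symm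
      rw [h7, add_zero]
  · intro n t T b i hn hnt htT hi
    obtain ⟨-, hA2, -, hA4⟩ := hA σ (nn N T) (fun m hm _ => hσ m hm)
    unfold cl
    rw [← Finset.sum_fiberwise_of_maps_to (t := (range (nn N t)).filter fun k => anc σ n k = i)
      (g := fun j => anc σ (nn N t) j)]
    · refine Finset.sum_congr rfl fun k hk => ?_
      rw [Finset.mem_filter] at hk
      refine Finset.sum_congr ?_ fun j _ => rfl
      ext j
      simp only [Finset.mem_filter, Finset.mem_range]
      constructor
      · rintro ⟨⟨h1, _⟩, h3⟩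
        exact ⟨h1, h3⟩
      · rintro ⟨h1, h3⟩
        refine ⟨⟨h1, ?_⟩, h3⟩
        rw [← hA4 n (nn N t) j hn hnt h1, h3]
        exact hk.2
    · intro j hj
      rw [Finset.mem_filter, Finset.mem_range] at hj ⊢
      exact ⟨(hA2 (nn N t) j (hone t) hj.1).1, by rw [hA4 n (nn N t) j hn hnt hj.1]; exact hj.2⟩
  · intro t b i hi
    obtain ⟨hA1, -, -, -⟩ := hA σ (nn N t) (fun m hm _ => hσ m hm)
    unfold cl
    rw [Finset.sum_filter, ← Finset.sum_ite_eq' (range (nn N t)) i b |>.trans
      (if_pos (Finset.mem_range.2 hi))]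
    refine Finset.sum_congr rfl fun j hj => ?_
    rw [hA1 (nn N t) j (Finset.mem_range.1 hj)]

end Pool.Agent.NE.H19
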